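import Mathlib

/-!
# GK, D6: the polynomial inequality (helper402 for helper332)

After `η = w / 6` and `s = (1 - η - 3/10 Y) v / 2` every coefficient of the polynomial in `Y` has
nonnegative Bernstein coefficients in `(w, v)`, up to an explicit constant (as in `N769/LS/D5`).
-/

set_option autoImplicit false
set_option linter.all false

namespace Pool.Agent.N402.GK

/-- the coefficient of `Y ^ 1` -/
noncomputable def co1 (w v : ℝ) : ℝ :=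
  (1/2) + (-1/2)*v + (-1/12)*w + (1/12)*w*v

theorem co1_ge {w v : ℝ} (hw : 0 ≤ w) (hw1 : 0 ≤ 1 - w) (hv : 0 ≤ v) (hv1 : 0 ≤ 1 - v) :
    (0) ≤ co1 w v := by
  have h : 0 ≤
      (1-w)*((1/2)*(1-v)) +
      w*((5/12)*(1-v)) := by
    positivity
  have e : co1 w v - (0) =
      (1-w)*((1/2)*(1-v)) +
      w*((5/12)*(1-v)) := by
    unfold co1
    ring
  linarith

/-- the coefficient of `Y ^ 2` -/
noncomputable def co2 (w v : ℝ) : ℝ :=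
  (1/4) + (-7/20)*v + (1/8)*v^2 + (-1/6)*w + (1/4)*w*v + (-1/24)*w*v^2 + (1/72)*w^2 + (-1/36)*w^2*v + (1/288)*w^2*v^2

theorem co2_ge {w v : ℝ} (hw : 0 ≤ w) (hw1 : 0 ≤ 1 - w) (hv : 0 ≤ v) (hv1 : 0 ≤ 1 - v) :
    (1/50) ≤ co2 w v := by
  have h : 0 ≤
      (1-w)^2*((23/100)*(1-v)^2 + (11/100)*v*(1-v) + (1/200)*v^2) +
      w*(1-w)*((22/75)*(1-v)^2 + (41/300)*v*(1-v) + (31/600)*v^2) +
      w^2*((139/1800)*(1-v)^2 + (2/75)*v*(1-v) + (29/800)*v^2) := by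
    positivity
  have e : co2 w v - (1/50) =
      (1-w)^2*((23/100)*(1-v)^2 + (11/100)*v*(1-v) + (1/200)*v^2) +
      w*(1-w)*((22/75)*(1-v)^2 + (41/300)*v*(1-v) + (31/600)*v^2) +
      w^2*((139/1800)*(1-v)^2 + (2/75)*v*(1-v) + (29/800)*v^2) := by
    unfold co2
    ring
  linarith

/-- the coefficient of `Y ^ 3` -/
noncomputable def co3 (w v : ℝ) : ℝ :=
  (247/1000) + (11/40)*v + (-11/80)*v^2 + (1/24)*v^3 + (-1/24)*w + (-1/120)*w*v + (31/480)*w*v^2 + (-1/48)*w*v^3 + (1/72)*w^2 + (-5/432)*w^2*v + (-7/576)*w^2*v^2 + (1/288)*w^2*v^3 + (1/5184)*w^3*v + (1/1152)*w^3*v^2 + (-1/5184)*w^3*v^3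

theorem co3_ge {w v : ℝ} (hw : 0 ≤ w) (hw1 : 0 ≤ 1 - w) (hv : 0 ≤ v) (hv1 : 0 ≤ 1 - v) :
    (0) ≤ co3 w v := by
  have h : 0 ≤
      (1-w)^3*((247/1000)*(1-v)^3 + (127/125)*v*(1-v)^2 + (2307/2000)*v^2*(1-v) + (2557/6000)*v^3) +
      w*(1-w)^2*((1049/1500)*(1-v)^3 + (1093/375)*v*(1-v)^2 + (40601/12000)*v^2*(1-v) + (5089/4000)*v^3) +
      w^2*(1-w)*((1511/2250)*(1-v)^3 + (151817/54000)*v*(1-v)^2 + (715543/216000)*v^2*(1-v) + (272081/216000)*v^3) +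
      w^3*((1973/9000)*(1-v)^3 + (591593/648000)*v*(1-v)^2 + (1404911/1296000)*v^2*(1-v) + (179029/432000)*v^3) := by
    positivity
  have e : co3 w v - (0) =
      (1-w)^3*((247/1000)*(1-v)^3 + (127/125)*v*(1-v)^2 + (2307/2000)*v^2*(1-v) + (2557/6000)*v^3) +
      w*(1-w)^2*((1049/1500)*(1-v)^3 + (1093/375)*v*(1-v)^2 + (40601/12000)*v^2*(1-v) + (5089/4000)*v^3) +
      w^2*(1-w)*((1511/2250)*(1-v)^3 + (151817/54000)*v*(1-v)^2 + (715543/216000)*v^2*(1-v) + (272081/216000)*v^3) +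
      w^3*((1973/9000)*(1-v)^3 + (591593/648000)*v*(1-v)^2 + (1404911/1296000)*v^2*(1-v) + (179029/432000)*v^3) := by
    unfold co3
    ring
  linarith

/-- the coefficient of `Y ^ 4` -/
noncomputable def co4 (w v : ℝ) : ℝ :=
  (747/2000) + (89/1000)*v + (2/25)*v^2 + (-23/480)*v^3 + (1/96)*v^4 + (-991/12000)*w + (-853/12000)*w*v + (-17/480)*w*v^2 + (1/30)*w*v^3 + (-1/144)*w*v^4 + (29/4320)*w^2*v + (169/17280)*w^2*v^2 + (-7/720)*w^2*v^3 + (1/576)*w^2*v^4 + (1/2592)*w^3*v + (-5/2592)*w^3*v^2 + (7/5184)*w^3*v^3 + (-1/5184)*w^3*v^4 + (-1/10368)*w^4*v + (5/31104)*w^4*v^2 + (-1/13824)*w^4*v^3 + (1/124416)*w^4*v^4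

theorem co4_ge {w v : ℝ} (hw : 0 ≤ w) (hw1 : 0 ≤ 1 - w) (hv : 0 ≤ v) (hv1 : 0 ≤ 1 - v) :
    (0) ≤ co4 w v := by
  have h : 0 ≤
      (1-w)^4*((747/2000)*(1-v)^4 + (1583/1000)*v*(1-v)^3 + (647/250)*v^2*(1-v)^2 + (22477/12000)*v^3*(1-v) + (101/200)*v^4) +
      w*(1-w)^3*((16937/12000)*(1-v)^4 + (71167/12000)*v*(1-v)^3 + (57647/6000)*v^2*(1-v)^2 + (5529/800)*v^3*(1-v) + (66863/36000)*v^4) +
      w^2*(1-w)^2*((7973/4000)*(1-v)^4 + (17929/2160)*v*(1-v)^3 + (5756581/432000)*v^2*(1-v)^2 + (2057449/216000)*v^3*(1-v) + (367261/144000)*v^4) +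
      w^3*(1-w)*((997/800)*(1-v)^4 + (832933/162000)*v*(1-v)^3 + (5299711/648000)*v^2*(1-v)^2 + (3763381/648000)*v^3*(1-v) + (1003457/648000)*v^4) +
      w^4*((3491/12000)*(1-v)^4 + (513469/432000)*v*(1-v)^3 + (7281649/3888000)*v^2*(1-v)^2 + (20537759/15552000)*v^3*(1-v) + (454153/1296000)*v^4) := by
    positivity
  have e : co4 w v - (0) =
      (1-w)^4*((747/2000)*(1-v)^4 + (1583/1000)*v*(1-v)^3 + (647/250)*v^2*(1-v)^2 + (22477/12000)*v^3*(1-v) + (101/200)*v^4) +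
      w*(1-w)^3*((16937/12000)*(1-v)^4 + (71167/12000)*v*(1-v)^3 + (57647/6000)*v^2*(1-v)^2 + (5529/800)*v^3*(1-v) + (66863/36000)*v^4) +
      w^2*(1-w)^2*((7973/4000)*(1-v)^4 + (17929/2160)*v*(1-v)^3 + (5756581/432000)*v^2*(1-v)^2 + (2057449/216000)*v^3*(1-v) + (367261/144000)*v^4) +
      w^3*(1-w)*((997/800)*(1-v)^4 + (832933/162000)*v*(1-v)^3 + (5299711/648000)*v^2*(1-v)^2 + (3763381/648000)*v^3*(1-v) + (1003457/648000)*v^4) +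
      w^4*((3491/12000)*(1-v)^4 + (513469/432000)*v*(1-v)^3 + (7281649/3888000)*v^2*(1-v)^2 + (20537759/15552000)*v^3*(1-v) + (454153/1296000)*v^4) := by
    unfold co4
    ring
  linarith

/-- the coefficient of `Y ^ 5` -/
noncomputable def co5 (w v : ℝ) : ℝ :=
  (503/4000) + (-759/20000)*v + (11/1600)*v^2 + (31/1200)*v^3 + (-1/80)*v^4 + (-997/12000)*w + (-1/960)*w*v + (-31/3200)*w*v^2 + (-287/14400)*w*v^3 + (1/160)*w*v^4 + (497/72000)*w^2 + (11/4320)*w^2*v + (1/1152)*w^2*v^2 + (73/17280)*w^2*v^3 + (-1/960)*w^2*v^4 + (1/51840)*w^3*v + (-1/2304)*w^3*v^2 + (-13/103680)*w^3*v^3 + (1/17280)*w^3*v^4 + (-1/7776)*w^4*v + (1/6912)*w^4*v^2 + (-1/31104)*w^4*v^3 + (1/93312)*w^5*v + (-1/124416)*w^5*v^2 + (1/746496)*w^5*v^3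

theorem co5_ge {w v : ℝ} (hw : 0 ≤ w) (hw1 : 0 ≤ 1 - w) (hv : 0 ≤ v) (hv1 : 0 ≤ 1 - v) :
    (0) ≤ co5 w v := by
  have h : 0 ≤
      (1-w)^5*((503/4000)*(1-v)^4 + (9301/20000)*v*(1-v)^3 + (25901/40000)*v^2*(1-v)^2 + (6431/15000)*v^3*(1-v) + (12961/120000)*v^4) +
      w*(1-w)^4*((1637/3000)*(1-v)^4 + (3187/1600)*v*(1-v)^3 + (43621/16000)*v^2*(1-v)^2 + (127361/72000)*v^3*(1-v) + (62287/144000)*v^4) +
      w^2*(1-w)^3*((67109/72000)*(1-v)^4 + (361493/108000)*v*(1-v)^3 + (645109/144000)*v^2*(1-v)^2 + (1222339/432000)*v^3*(1-v) + (2389/3600)*v^4) +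
      w^3*(1-w)^2*((18713/24000)*(1-v)^4 + (3552001/1296000)*v*(1-v)^3 + (3073049/864000)*v^2*(1-v)^2 + (5602469/2592000)*v^3*(1-v) + (123157/259200)*v^4) +
      w^4*(1-w)*((2537/8000)*(1-v)^4 + (420733/388800)*v*(1-v)^3 + (3476267/2592000)*v^2*(1-v)^2 + (1489577/1944000)*v^3*(1-v) + (1163203/7776000)*v^4) +
      w^5*((3569/72000)*(1-v)^4 + (2358079/14580000)*v*(1-v)^3 + (1603091/8640000)*v^2*(1-v)^2 + (43918849/466560000)*v^3*(1-v) + (700927/51840000)*v^4) := by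
    positivity
  have e : co5 w v - (0) =
      (1-w)^5*((503/4000)*(1-v)^4 + (9301/20000)*v*(1-v)^3 + (25901/40000)*v^2*(1-v)^2 + (6431/15000)*v^3*(1-v) + (12961/120000)*v^4) +
      w*(1-w)^4*((1637/3000)*(1-v)^4 + (3187/1600)*v*(1-v)^3 + (43621/16000)*v^2*(1-v)^2 + (127361/72000)*v^3*(1-v) + (62287/144000)*v^4) +
      w^2*(1-w)^3*((67109/72000)*(1-v)^4 + (361493/108000)*v*(1-v)^3 + (645109/144000)*v^2*(1-v)^2 + (1222339/432000)*v^3*(1-v) + (2389/3600)*v^4) +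
      w^3*(1-w)^2*((18713/24000)*(1-v)^4 + (3552001/1296000)*v*(1-v)^3 + (3073049/864000)*v^2*(1-v)^2 + (5602469/2592000)*v^3*(1-v) + (123157/259200)*v^4) +
      w^4*(1-w)*((2537/8000)*(1-v)^4 + (420733/388800)*v*(1-v)^3 + (3476267/2592000)*v^2*(1-v)^2 + (1489577/1944000)*v^3*(1-v) + (1163203/7776000)*v^4) +
      w^5*((3569/72000)*(1-v)^4 + (2358079/14580000)*v*(1-v)^3 + (1603091/8640000)*v^2*(1-v)^2 + (43918849/466560000)*v^3*(1-v) + (700927/51840000)*v^4) := by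
    unfold co5
    ring
  linarith

/-- the coefficient of `Y ^ 6` -/
noncomputable def co6 (w v : ℝ) : ℝ :=
  (3/4000) + (-51/3200)*v^2 + (-41/12000)*v^3 + (9/1600)*v^4 + (-253/12000)*w + (1/320)*w*v + (1/160)*w*v^2 + (1/2880)*w*v^3 + (-3/1600)*w*v^4 + (1/288)*w^2 + (-1/1080)*w^2*v + (-11/5760)*w^2*v^2 + (1/800)*w^2*v^3 + (1/6400)*w^2*v^4 + (-1/8640)*w^3*v + (11/17280)*w^3*v^2 + (-31/103680)*w^3*v^3 + (11/311040)*w^4*v + (-11/207360)*w^4*v^2 + (19/1244160)*w^4*v^3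

theorem co6_ge {w v : ℝ} (hw : 0 ≤ w) (hw1 : 0 ≤ 1 - w) (hv : 0 ≤ v) (hv1 : 0 ≤ 1 - v) :
    (-1/40) ≤ co6 w v := by
  have h : 0 ≤
      (1-w)^4*((103/4000)*(1-v)^4 + (103/1000)*v*(1-v)^3 + (2217/16000)*v^2*(1-v)^2 + (13/192)*v^3*(1-v) + (577/48000)*v^4) +
      w*(1-w)^3*((983/12000)*(1-v)^4 + (7939/24000)*v*(1-v)^3 + (3547/8000)*v^2*(1-v)^2 + (3757/18000)*v^3*(1-v) + (2509/72000)*v^4) +
      w^2*(1-w)^2*((341/3600)*(1-v)^4 + (16733/43200)*v*(1-v)^3 + (4943/9600)*v^2*(1-v)^2 + (5483/24000)*v^3*(1-v) + (29773/864000)*v^4) +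
      w^3*(1-w)*((1681/36000)*(1-v)^4 + (5243/27000)*v*(1-v)^3 + (109817/432000)*v^2*(1-v)^2 + (264929/2592000)*v^3*(1-v) + (32873/2592000)*v^4) +
      w^4*((293/36000)*(1-v)^4 + (269627/7776000)*v*(1-v)^3 + (229007/5184000)*v^2*(1-v)^2 + (459751/31104000)*v^3*(1-v) + (2171/2073600)*v^4) := by
    positivity
  have e : co6 w v - (-1/40) =
      (1-w)^4*((103/4000)*(1-v)^4 + (103/1000)*v*(1-v)^3 + (2217/16000)*v^2*(1-v)^2 + (13/192)*v^3*(1-v) + (577/48000)*v^4) +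
      w*(1-w)^3*((983/12000)*(1-v)^4 + (7939/24000)*v*(1-v)^3 + (3547/8000)*v^2*(1-v)^2 + (3757/18000)*v^3*(1-v) + (2509/72000)*v^4) +
      w^2*(1-w)^2*((341/3600)*(1-v)^4 + (16733/43200)*v*(1-v)^3 + (4943/9600)*v^2*(1-v)^2 + (5483/24000)*v^3*(1-v) + (29773/864000)*v^4) +
      w^3*(1-w)*((1681/36000)*(1-v)^4 + (5243/27000)*v*(1-v)^3 + (109817/432000)*v^2*(1-v)^2 + (264929/2592000)*v^3*(1-v) + (32873/2592000)*v^4) +
      w^4*((293/36000)*(1-v)^4 + (269627/7776000)*v*(1-v)^3 + (229007/5184000)*v^2*(1-v)^2 + (459751/31104000)*v^3*(1-v) + (2171/2073600)*v^4) := by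
    unfold co6
    ring
  linarith

/-- the coefficient of `Y ^ 7` -/
noncomputable def co7 (w v : ℝ) : ℝ :=
  (9/3200)*v^2 + (-3/1000)*v^3 + (-9/8000)*v^4 + (-1/8000)*w + (-3/6400)*w*v^2 + (149/72000)*w*v^3 + (3/16000)*w*v^4 + (1/48000)*w^2 + (1/5760)*w^2*v + (-11/57600)*w^2*v^2 + (-79/345600)*w^2*v^3 + (-17/103680)*w^3*v + (37/115200)*w^3*v^2 + (-61/691200)*w^3*v^3 + (1/15552)*w^4*v + (-1/13824)*w^4*v^2 + (1/62208)*w^4*v^3 + (-1/186624)*w^5*v + (1/248832)*w^5*v^2 + (-1/1492992)*w^5*v^3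

theorem co7_ge {w v : ℝ} (hw : 0 ≤ w) (hw1 : 0 ≤ 1 - w) (hv : 0 ≤ v) (hv1 : 0 ≤ 1 - v) :
    (-1/40) ≤ co7 w v := by
  have h : 0 ≤
      (1-w)^5*((1/40)*(1-v)^4 + (1/10)*v*(1-v)^3 + (489/3200)*v^2*(1-v)^2 + (821/8000)*v^3*(1-v) + (379/16000)*v^4) +
      w*(1-w)^4*((999/8000)*(1-v)^4 + (999/2000)*v*(1-v)^3 + (24411/32000)*v^2*(1-v)^2 + (73981/144000)*v^3*(1-v) + (34589/288000)*v^4) +
      w^2*(1-w)^3*((11977/48000)*(1-v)^4 + (143749/144000)*v*(1-v)^3 + (438827/288000)*v^2*(1-v)^2 + (1777717/1728000)*v^3*(1-v) + (420427/1728000)*v^4) +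
      w^3*(1-w)^2*((3989/16000)*(1-v)^4 + (2585797/2592000)*v*(1-v)^3 + (2630027/1728000)*v^2*(1-v)^2 + (3559973/3456000)*v^3*(1-v) + (2553097/10368000)*v^4) +
      w^4*(1-w)*((1993/16000)*(1-v)^4 + (484549/972000)*v*(1-v)^3 + (3941557/5184000)*v^2*(1-v)^2 + (802207/1555200)*v^3*(1-v) + (1937171/15552000)*v^4) +
      w^5*((239/9600)*(1-v)^4 + (58117/583200)*v*(1-v)^3 + (105053/691200)*v^2*(1-v)^2 + (19291021/186624000)*v^3*(1-v) + (522559/20736000)*v^4) := by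
    positivity
  have e : co7 w v - (-1/40) =
      (1-w)^5*((1/40)*(1-v)^4 + (1/10)*v*(1-v)^3 + (489/3200)*v^2*(1-v)^2 + (821/8000)*v^3*(1-v) + (379/16000)*v^4) +
      w*(1-w)^4*((999/8000)*(1-v)^4 + (999/2000)*v*(1-v)^3 + (24411/32000)*v^2*(1-v)^2 + (73981/144000)*v^3*(1-v) + (34589/288000)*v^4) +
      w^2*(1-w)^3*((11977/48000)*(1-v)^4 + (143749/144000)*v*(1-v)^3 + (438827/288000)*v^2*(1-v)^2 + (1777717/1728000)*v^3*(1-v) + (420427/1728000)*v^4) +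
      w^3*(1-w)^2*((3989/16000)*(1-v)^4 + (2585797/2592000)*v*(1-v)^3 + (2630027/1728000)*v^2*(1-v)^2 + (3559973/3456000)*v^3*(1-v) + (2553097/10368000)*v^4) +
      w^4*(1-w)*((1993/16000)*(1-v)^4 + (484549/972000)*v*(1-v)^3 + (3941557/5184000)*v^2*(1-v)^2 + (802207/1555200)*v^3*(1-v) + (1937171/15552000)*v^4) +
      w^5*((239/9600)*(1-v)^4 + (58117/583200)*v*(1-v)^3 + (105053/691200)*v^2*(1-v)^2 + (19291021/186624000)*v^3*(1-v) + (522559/20736000)*v^4) := by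
    unfold co7
    ring
  linarith

/-- the coefficient of `Y ^ 8` -/
noncomputable def co8 (w v : ℝ) : ℝ :=
  (81/64000)*v^3 + (27/320000)*v^4 + (1/32000)*w*v^3 + (17/38400)*w^2*v^2 + (-39/128000)*w^2*v^3 + (1/17280)*w^3*v + (-1/5760)*w^3*v^2 + (1/15360)*w^3*v^3 + (-1/103680)*w^4*v + (1/69120)*w^4*v^2 + (-1/276480)*w^4*v^3

theorem co8_ge {w v : ℝ} (hw : 0 ≤ w) (hw1 : 0 ≤ 1 - w) (hv : 0 ≤ v) (hv1 : 0 ≤ 1 - v) :
    (0) ≤ co8 w v := by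
  have h : 0 ≤
      (1-w)^4*((81/64000)*v^3*(1-v) + (27/20000)*v^4) +
      w*(1-w)^3*((163/32000)*v^3*(1-v) + (869/160000)*v^4) +
      w^2*(1-w)^2*((17/38400)*v^2*(1-v)^2 + (127/15360)*v^3*(1-v) + (15997/1920000)*v^4) +
      w^3*(1-w)*((1/17280)*v*(1-v)^3 + (17/19200)*v^2*(1-v)^2 + (7153/1152000)*v^3*(1-v) + (98827/17280000)*v^4) +
      w^4*((1/20736)*v*(1-v)^3 + (37/86400)*v^2*(1-v)^2 + (12203/6912000)*v^3*(1-v) + (152393/103680000)*v^4) := by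
    positivity
  have e : co8 w v - (0) =
      (1-w)^4*((81/64000)*v^3*(1-v) + (27/20000)*v^4) +
      w*(1-w)^3*((163/32000)*v^3*(1-v) + (869/160000)*v^4) +
      w^2*(1-w)^2*((17/38400)*v^2*(1-v)^2 + (127/15360)*v^3*(1-v) + (15997/1920000)*v^4) +
      w^3*(1-w)*((1/17280)*v*(1-v)^3 + (17/19200)*v^2*(1-v)^2 + (7153/1152000)*v^3*(1-v) + (98827/17280000)*v^4) +
      w^4*((1/20736)*v*(1-v)^3 + (37/86400)*v^2*(1-v)^2 + (12203/6912000)*v^3*(1-v) + (152393/103680000)*v^4) := by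
    unfold co8
    ring
  linarith

/-- the coefficient of `Y ^ 9` -/
noncomputable def co9 (w v : ℝ) : ℝ :=
  (-9/64000)*v^3 + (-3/16000)*w*v^3 + (-1/12800)*w^2*v^2 + (1/12800)*w^2*v^3 + (1/76800)*w^3*v^2 + (-1/153600)*w^3*v^3

theorem co9_ge {w v : ℝ} (hw : 0 ≤ w) (hw1 : 0 ≤ 1 - w) (hv : 0 ≤ v) (hv1 : 0 ≤ 1 - v) :
    (-1/40) ≤ co9 w v := by
  have h : 0 ≤
      (1-w)^3*((1/40)*(1-v)^3 + (3/40)*v*(1-v)^2 + (3/40)*v^2*(1-v) + (1591/64000)*v^3) +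
      w*(1-w)^2*((3/40)*(1-v)^3 + (9/40)*v*(1-v)^2 + (9/40)*v^2*(1-v) + (4761/64000)*v^3) +
      w^2*(1-w)*((3/40)*(1-v)^3 + (9/40)*v*(1-v)^2 + (2879/12800)*v^2*(1-v) + (4749/64000)*v^3) +
      w^3*((1/40)*(1-v)^3 + (3/40)*v*(1-v)^2 + (1151/15360)*v^2*(1-v) + (18953/768000)*v^3) := by
    positivity
  have e : co9 w v - (-1/40) =
      (1-w)^3*((1/40)*(1-v)^3 + (3/40)*v*(1-v)^2 + (3/40)*v^2*(1-v) + (1591/64000)*v^3) +
      w*(1-w)^2*((3/40)*(1-v)^3 + (9/40)*v*(1-v)^2 + (9/40)*v^2*(1-v) + (4761/64000)*v^3) +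
      w^2*(1-w)*((3/40)*(1-v)^3 + (9/40)*v*(1-v)^2 + (2879/12800)*v^2*(1-v) + (4749/64000)*v^3) +
      w^3*((1/40)*(1-v)^3 + (3/40)*v*(1-v)^2 + (1151/15360)*v^2*(1-v) + (18953/768000)*v^3) := by
    unfold co9
    ring
  linarith

/-- the coefficient of `Y ^ 10` -/
noncomputable def co10 (w v : ℝ) : ℝ :=
  (3/128000)*w*v^3 + (-1/256000)*w^2*v^3

theorem co10_ge {w v : ℝ} (hw : 0 ≤ w) (hw1 : 0 ≤ 1 - w) (hv : 0 ≤ v) (hv1 : 0 ≤ 1 - v) :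
    (0) ≤ co10 w v := by
  have h : 0 ≤
      w*(1-w)*((3/128000)*v^3) +
      w^2*((1/51200)*v^3) := by
    positivity
  have e : co10 w v - (0) =
      w*(1-w)*((3/128000)*v^3) +
      w^2*((1/51200)*v^3) := by
    unfold co10
    ring
  linarith

/-- the polynomial identity -/
theorem ident (Y w v : ℝ) {η s : ℝ} (hη : η = w / 6) (hs : s = (1 - w / 6 - 3 / 10 * Y) * v / 2) :
    s * (1 + s * Y + s * (s + η) / 2 * Y ^ 2 +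
      (s * (s + η) * (s + 2 * η) / 6 + 3 / 1000) * Y ^ 3) * (1 + (1 - η) * Y) +
    (1 - η * Y) * ((1 + Y) * (1 + (1 - η) * Y)) -
    (1 - η * Y) * ((1 + s * Y + s * (s + η) / 2 * Y ^ 2 +
      (s * (s + η) * (s + 2 * η) / 6 + 3 / 1000) * Y ^ 3) + Y * (1 + Y / 2)) *
      ((1 / 2 + s) + (1 + (1 - η) * Y) * (1 - Y ^ 2 / 2) / 2) =
    co1 w v * Y ^ 1 + co2 w v * Y ^ 2 + co3 w v * Y ^ 3 + co4 w v * Y ^ 4 + co5 w v * Y ^ 5 + co6 w v * Y ^ 6 + co7 w v * Y ^ 7 + co8 w v * Y ^ 8 + co9 w v * Y ^ 9 + co10 w v * Y ^ 10 := by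
  subst hη hs
  unfold co1 co2 co3 co4 co5 co6 co7 co8 co9 co10
  ring


/-- the polynomial is nonnegative -/
theorem sum_nonneg' {Y w v : ℝ} (hY0 : 0 ≤ Y) (hY1 : Y ≤ 5 / 24) (hw : 0 ≤ w) (hw1 : 0 ≤ 1 - w)
    (hv : 0 ≤ v) (hv1 : 0 ≤ 1 - v) :
    0 ≤ co1 w v * Y ^ 1 + co2 w v * Y ^ 2 + co3 w v * Y ^ 3 + co4 w v * Y ^ 4 + co5 w v * Y ^ 5 + co6 w v * Y ^ 6 + co7 w v * Y ^ 7 + co8 w v * Y ^ 8 + co9 w v * Y ^ 9 + co10 w v * Y ^ 10 := by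
  have m1 := mul_le_mul_of_nonneg_right (co1_ge hw hw1 hv hv1) (pow_nonneg hY0 1)
  have m2 := mul_le_mul_of_nonneg_right (co2_ge hw hw1 hv hv1) (pow_nonneg hY0 2)
  have m3 := mul_le_mul_of_nonneg_right (co3_ge hw hw1 hv hv1) (pow_nonneg hY0 3)
  have m4 := mul_le_mul_of_nonneg_right (co4_ge hw hw1 hv hv1) (pow_nonneg hY0 4)
  have m5 := mul_le_mul_of_nonneg_right (co5_ge hw hw1 hv hv1) (pow_nonneg hY0 5)
  have m6 := mul_le_mul_of_nonneg_right (co6_ge hw hw1 hv hv1) (pow_nonneg hY0 6)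
  have m7 := mul_le_mul_of_nonneg_right (co7_ge hw hw1 hv hv1) (pow_nonneg hY0 7)
  have m8 := mul_le_mul_of_nonneg_right (co8_ge hw hw1 hv hv1) (pow_nonneg hY0 8)
  have m9 := mul_le_mul_of_nonneg_right (co9_ge hw hw1 hv hv1) (pow_nonneg hY0 9)
  have m10 := mul_le_mul_of_nonneg_right (co10_ge hw hw1 hv hv1) (pow_nonneg hY0 10)
  have h2 : 0 ≤ Y ^ 2 := pow_nonneg hY0 2
  have hle : ∀ n : ℕ, Y ^ 2 * Y ^ (n + 1) ≤ Y ^ 2 * (5 / 24) := by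
    intro n
    refine mul_le_mul_of_nonneg_left ?_ h2
    calc Y ^ (n + 1) = Y ^ n * Y := pow_succ _ _
      _ ≤ 1 * (5 / 24) := mul_le_mul (pow_le_one₀ hY0 (by linarith)) hY1 hY0 (by norm_num)
      _ = 5 / 24 := one_mul _
  have l6 := hle 3
  have l7 := hle 4
  have l9 := hle 6
  rw [← pow_add] at l6 l7 l9
  norm_num at l6 l7 l9 m1 m2 m3 m4 m5 m6 m7 m8 m9 m10
  linarith

/-- **GK D6** -/
theorem D6 {Y η s E : ℝ} (hY0 : 0 ≤ Y) (hY1 : Y ≤ 5 / 24) (hη0 : 0 ≤ η) (hη1 : η ≤ 1 / 6)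
    (hs0 : 0 ≤ s) (hs1 : 2 * s + η + 3 / 10 * Y ≤ 1)
    (hE : E ≤ 1 + s * Y + s * (s + η) / 2 * Y ^ 2 +
      (s * (s + η) * (s + 2 * η) / 6 + 3 / 1000) * Y ^ 3) :
    (E + Y * (1 + Y / 2)) * ((1 / 2 + s) + (1 + (1 - η) * Y) * (1 - Y ^ 2 / 2) / 2) ≤
      (s * E / (1 - η * Y) + 1 + Y) * (1 + (1 - η) * Y) := by
  have hηY : η * Y ≤ 1 / 6 * (5 / 24) := mul_le_mul hη1 hY1 hY0 (by norm_num)
  have hd : 0 < 1 - η * Y := by linarith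
  have hd' : 0 < 1 - η - 3 / 10 * Y := by linarith
  have hA : 0 ≤ 1 + (1 - η) * Y := by
    have := mul_nonneg (show (0 : ℝ) ≤ 1 - η by linarith) hY0
    linarith
  have hY2 : Y ^ 2 ≤ 1 := pow_le_one₀ hY0 (by linarith)
  obtain ⟨w, hw⟩ : ∃ w, w = 6 * η := ⟨_, rfl⟩
  obtain ⟨v, hv⟩ : ∃ v, v = 2 * s / (1 - η - 3 / 10 * Y) := ⟨_, rfl⟩
  have hw0 : 0 ≤ w := by rw [hw]; linarith
  have hw1 : 0 ≤ 1 - w := by rw [hw]; linarith
  have hv0 : 0 ≤ v := by rw [hv]; positivity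
  have hv1 : 0 ≤ 1 - v := by
    rw [hv, sub_nonneg, div_le_one hd']
    linarith
  have eη : η = w / 6 := by rw [hw]; ring
  have es : s = (1 - w / 6 - 3 / 10 * Y) * v / 2 := by
    rw [← eη, hv, mul_div_cancel₀ _ hd'.ne']
    ring
  have hid := ident Y w v eη es
  have hq := sum_nonneg' hY0 hY1 hw0 hw1 hv0 hv1
  rw [← hid] at hq
  set B := 1 + s * Y + s * (s + η) / 2 * Y ^ 2 +
      (s * (s + η) * (s + 2 * η) / 6 + 3 / 1000) * Y ^ 3 with hB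
  -- the coefficient of `E`
  have hsY : s * Y ≤ 1 / 2 * (5 / 24) := mul_le_mul (by linarith) hY1 hY0 (by norm_num)
  have hc : s * (1 + (1 - η) * Y) ≤ (1 / 2 + s) * (1 - η * Y) := by nlinarith
  have hc2 : s * (1 + (1 - η) * Y) ≤
      (1 - η * Y) * ((1 / 2 + s) + (1 + (1 - η) * Y) * (1 - Y ^ 2 / 2) / 2) := by
    have h2 : 0 ≤ (1 - η * Y) * ((1 + (1 - η) * Y) * (1 - Y ^ 2 / 2) / 2) := by
      have : 0 ≤ 1 - Y ^ 2 / 2 := by linarith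
      positivity
    linarith
  have hfin : (1 - η * Y) * ((E + Y * (1 + Y / 2)) *
      ((1 / 2 + s) + (1 + (1 - η) * Y) * (1 - Y ^ 2 / 2) / 2)) ≤
      s * E * (1 + (1 - η) * Y) + (1 - η * Y) * ((1 + Y) * (1 + (1 - η) * Y)) := by
    have h3 := mul_le_mul_of_nonneg_left hc2 (sub_nonneg.2 hE)
    linarith
  have e : (s * E / (1 - η * Y) + 1 + Y) * (1 + (1 - η) * Y) =
      (s * E * (1 + (1 - η) * Y) + (1 - η * Y) * ((1 + Y) * (1 + (1 - η) * Y))) /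
        (1 - η * Y) := by
    field_simp
    ring
  rw [e, le_div_iff₀ hd]
  linarith

end Pool.Agent.N402.GK
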